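import Pool.Agent.H25.DL.Targets
import Pool.Agent.H27.LI.ST
import Pool.Agent.H23.GLH.GammaStrip

/-!
# MP_347b49_nt, module YB: the size of the inverse factor to the right of the critical line
-/

set_option autoImplicit false

open Complex MeasureTheory Set Filter Topology

namespace Pool.Agent.H89.DL

open Pool.Agent.H25.DL Pool.Agent.H27.LI

lemma lp_eq (t : ℝ) : Pool.Agent.H74.LI.lp t = -1 / 2 + t * I := by
  rw [Pool.Agent.H74.LI.lp]
  ring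

/-- comparison with the line `Re s = -1/2` -/
lemma gam_cmp {m x t : ℝ} (hx : -1 / 2 ≤ x) (hm : x + 1 / 2 ≤ m) (ht : 1 ≤ t) (ht2 : 6 * m ≤ t) :
    Real.exp (-(19 * m + 18 * m ^ 2)) * t ^ (x + 1 / 2) * ‖Gamma (Pool.Agent.H74.LI.lp t)‖ ≤
      ‖Gamma (x + t * I)‖ ∧
    ‖Gamma (x + t * I)‖ ≤
      Real.exp (19 * m + 18 * m ^ 2) * t ^ (x + 1 / 2) * ‖Gamma (Pool.Agent.H74.LI.lp t)‖ := by
  have ht0 : 0 < t := by linarith
  obtain ⟨δ, hδ⟩ : ∃ δ : ℝ, δ = x + 1 / 2 := ⟨_, rfl⟩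
  have hδ0 : 0 ≤ δ := by linarith
  have hδm : δ ≤ m := by linarith
  have hn : ‖(δ : ℂ)‖ = δ := by rw [Complex.norm_real, Real.norm_eq_abs, abs_of_nonneg hδ0]
  have h6 : 6 * ‖(δ : ℂ)‖ ≤ t := by rw [hn]; linarith
  have hq := Gamma_quot ht h6
  obtain ⟨_, hS⟩ := sum_ej_summable ht h6
  have hz : Pool.Agent.H74.LI.lp t + (δ : ℂ) = x + t * I := by
    rw [lp_eq, hδ]; push_cast; ring
  rw [hz] at hq
  obtain ⟨S, hSdef⟩ : ∃ S : ℂ, S = ∑' j, ej (δ : ℂ) (Pool.Agent.H74.LI.lp t) j := ⟨_, rfl⟩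
  rw [← hSdef] at hq hS
  rw [hn] at hS
  have hl := log_lp ht0
  have hre : |((δ : ℂ) * Complex.log (Pool.Agent.H74.LI.lp t) + S).re - δ * Real.log t| ≤
      19 * m + 18 * m ^ 2 := by
    have e : ((δ : ℂ) * Complex.log (Pool.Agent.H74.LI.lp t) + S).re - δ * Real.log t =
        ((δ : ℂ) * (Complex.log (Pool.Agent.H74.LI.lp t) - (Real.log t + Real.pi / 2 * I)) + S).re := by
      simp only [Complex.add_re, Complex.sub_re, Complex.mul_re, Complex.ofReal_re, Complex.ofReal_im,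
        Complex.I_re, Complex.I_im]
      have h1 : ((Real.pi : ℂ) / 2).re = Real.pi / 2 := by
        rw [show ((Real.pi : ℂ) / 2) = ((Real.pi / 2 : ℝ) : ℂ) by push_cast; ring, Complex.ofReal_re]
      have h2 : ((Real.pi : ℂ) / 2).im = 0 := by
        rw [show ((Real.pi : ℂ) / 2) = ((Real.pi / 2 : ℝ) : ℂ) by push_cast; ring, Complex.ofReal_im]
      rw [h1, h2]
      ring
    rw [e]
    refine (Complex.abs_re_le_norm _).trans ((norm_add_le _ _).trans ?_)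
    rw [norm_mul, hn]
    have h3 : δ * ‖Complex.log (Pool.Agent.H74.LI.lp t) - (Real.log t + Real.pi / 2 * I)‖ ≤ m := by
      have h4 : 1 / (2 * t) ≤ 1 := by
        rw [div_le_one (by positivity)]; linarith
      have h5 := norm_nonneg (Complex.log (Pool.Agent.H74.LI.lp t) - (Real.log t + Real.pi / 2 * I))
      nlinarith
    have h4 : ‖S‖ ≤ 18 * m + 18 * m ^ 2 := by
      refine hS.trans ?_
      have h5 : 2 / t ≤ 2 := by
        rw [div_le_iff₀ ht0]; linarith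
      have h6 : 9 * δ + 9 * δ ^ 2 ≤ 9 * m + 9 * m ^ 2 := by nlinarith
      have h7 : 0 ≤ 9 * δ + 9 * δ ^ 2 := by positivity
      have h8 : 0 ≤ 2 / t := by positivity
      nlinarith
    linarith
  have hnorm : ‖Gamma (x + t * I)‖ = ‖Gamma (Pool.Agent.H74.LI.lp t)‖ *
      Real.exp (((δ : ℂ) * Complex.log (Pool.Agent.H74.LI.lp t) + S).re) := by
    rw [hq, norm_mul, Complex.norm_exp]
  have hpow : t ^ (x + 1 / 2) = Real.exp (δ * Real.log t) := by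
    rw [← hδ, Real.rpow_def_of_pos ht0, mul_comm]
  rw [hnorm, hpow]
  have h0 := norm_nonneg (Gamma (Pool.Agent.H74.LI.lp t))
  obtain ⟨h1, h2⟩ := abs_le.1 hre
  constructor
  · rw [← Real.exp_add, mul_comm]
    refine mul_le_mul_of_nonneg_left (Real.exp_le_exp.2 ?_) h0
    linarith
  · rw [← Real.exp_add, mul_comm (Real.exp _)]
    refine mul_le_mul_of_nonneg_left (Real.exp_le_exp.2 ?_) h0
    linarith

/-- comparison with the critical line -/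
lemma gam_half {m x t : ℝ} (hx : -1 / 2 ≤ x) (hm1 : 1 ≤ m) (hm : x + 1 / 2 ≤ m) (ht : 1 ≤ t)
    (ht2 : 6 * m ≤ t) :
    Real.exp (-(2 * (19 * m + 18 * m ^ 2))) * t ^ (x - 1 / 2) * ‖Gamma (1 / 2 + t * I)‖ ≤
      ‖Gamma (x + t * I)‖ ∧
    ‖Gamma (x + t * I)‖ ≤
      Real.exp (2 * (19 * m + 18 * m ^ 2)) * t ^ (x - 1 / 2) * ‖Gamma (1 / 2 + t * I)‖ := by
  have ht0 : 0 < t := by linarith
  obtain ⟨h1, h2⟩ := gam_cmp hx hm ht ht2
  obtain ⟨h3, h4⟩ := gam_cmp (x := 1 / 2) (by norm_num) (by linarith : (1 : ℝ) / 2 + 1 / 2 ≤ m) ht ht2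
  have e1 : (((1 / 2 : ℝ) : ℂ) + t * I) = 1 / 2 + t * I := by push_cast; ring
  rw [e1] at h3 h4
  have e2 : t ^ ((1 : ℝ) / 2 + 1 / 2) = t := by norm_num
  rw [e2] at h3 h4
  obtain ⟨K, hK⟩ : ∃ K : ℝ, K = 19 * m + 18 * m ^ 2 := ⟨_, rfl⟩
  rw [← hK] at h1 h2 h3 h4 ⊢
  obtain ⟨g, hg⟩ : ∃ g : ℝ, g = ‖Gamma (Pool.Agent.H74.LI.lp t)‖ := ⟨_, rfl⟩
  rw [← hg] at h1 h2 h3 h4
  have e3 : t ^ (x + 1 / 2) = t ^ (x - 1 / 2) * t := by
    rw [← Real.rpow_add_one ht0.ne']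
    congr 1
    ring
  rw [e3] at h1 h2
  have hp : 0 < t ^ (x - 1 / 2) := Real.rpow_pos_of_pos ht0 _
  have hE : Real.exp (-K) * Real.exp K = 1 := by rw [← Real.exp_add]; simp
  have hE1 : Real.exp (-(2 * K)) = Real.exp (-K) * Real.exp (-K) := by
    rw [← Real.exp_add]; congr 1; ring
  have hE2 : Real.exp (2 * K) = Real.exp K * Real.exp K := by
    rw [← Real.exp_add]; congr 1; ring
  have hKp := Real.exp_pos K
  have hKn := Real.exp_pos (-K)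
  constructor
  · refine le_trans ?_ h1
    rw [hE1]
    calc Real.exp (-K) * Real.exp (-K) * t ^ (x - 1 / 2) * ‖Gamma (1 / 2 + t * I)‖
        ≤ Real.exp (-K) * Real.exp (-K) * t ^ (x - 1 / 2) * (Real.exp K * t * g) :=
          mul_le_mul_of_nonneg_left h4 (by positivity)
      _ = (Real.exp (-K) * Real.exp K) * (Real.exp (-K) * (t ^ (x - 1 / 2) * t) * g) := by ring
      _ = _ := by rw [hE, one_mul]
  · refine h2.trans ?_
    rw [hE2]
    calc Real.exp K * (t ^ (x - 1 / 2) * t) * g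
        = (Real.exp (-K) * Real.exp K) * (Real.exp K * (t ^ (x - 1 / 2) * t) * g) := by
          rw [hE, one_mul]
      _ = Real.exp K * Real.exp K * t ^ (x - 1 / 2) * (Real.exp (-K) * t * g) := by ring
      _ ≤ _ := mul_le_mul_of_nonneg_left h3 (by positivity)

/-- size of `Γ` on the critical line -/
lemma gam_line {t : ℝ} (ht : 0 ≤ t) :
    Real.exp (-(Real.pi * t / 2)) ≤ ‖Gamma (1 / 2 + t * I)‖ ∧
    ‖Gamma (1 / 2 + t * I)‖ ≤ 3 * Real.exp (-(Real.pi * t / 2)) := by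
  have hpi := Real.pi_pos
  have hpi3 := Real.pi_gt_three
  have hpi4 := Real.pi_lt_four
  have h := Pool.Agent.H23.GLH.norm_Gamma_half_sq t
  have hx : 0 ≤ Real.pi * t := by positivity
  have hc : Real.cosh (Real.pi * t) ≤ Real.exp (Real.pi * t) := by
    rw [Real.cosh_eq]
    have : Real.exp (-(Real.pi * t)) ≤ Real.exp (Real.pi * t) := Real.exp_le_exp.2 (by linarith)
    linarith
  have hc2 : Real.exp (Real.pi * t) / 2 ≤ Real.cosh (Real.pi * t) := by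
    rw [Real.cosh_eq]
    have := Real.exp_pos (-(Real.pi * t))
    linarith
  have he : Real.exp (-(Real.pi * t / 2)) ^ 2 * Real.exp (Real.pi * t) = 1 := by
    rw [← Real.exp_nat_mul, ← Real.exp_add]
    rw [show ((2 : ℕ) : ℝ) * -(Real.pi * t / 2) + Real.pi * t = 0 by push_cast; ring, Real.exp_zero]
  have hep := Real.exp_pos (-(Real.pi * t / 2))
  have hep2 := Real.exp_pos (Real.pi * t)
  have hcp := Real.cosh_pos (Real.pi * t)
  constructor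
  · refine le_of_sq_le_sq ?_ (norm_nonneg _)
    rw [h, le_div_iff₀ hcp]
    nlinarith [mul_le_mul_of_nonneg_left hc (sq_nonneg (Real.exp (-(Real.pi * t / 2))))]
  · refine le_of_sq_le_sq ?_ (by positivity)
    rw [h, div_le_iff₀ hcp, mul_pow]
    nlinarith [mul_le_mul_of_nonneg_left hc2 (sq_nonneg (Real.exp (-(Real.pi * t / 2))))]

/-- size of the cosine -/
lemma cos_size {z : ℂ} (hz : Real.pi / 2 ≤ z.im) :
    Real.exp z.im / 4 ≤ ‖Complex.cos z‖ ∧ ‖Complex.cos z‖ ≤ Real.exp z.im := by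
  have hpi := Real.pi_pos
  have hpi3 := Real.pi_gt_three
  have h1 : ‖cexp (z * I)‖ = Real.exp (-z.im) := by
    rw [Complex.norm_exp]; congr 1; simp
  have h2 : ‖cexp (-z * I)‖ = Real.exp z.im := by
    rw [Complex.norm_exp]; congr 1; simp
  have hcos : Complex.cos z = (cexp (z * I) + cexp (-z * I)) / 2 := rfl
  have h3 : Real.exp (-z.im) ≤ Real.exp z.im / 2 := by
    have h4 : Real.exp (-z.im) * Real.exp z.im = 1 := by rw [← Real.exp_add]; simp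
    have h5 : 2 ≤ Real.exp z.im := by
      have := Real.add_one_le_exp z.im
      linarith
    have h6 := Real.exp_pos (-z.im)
    nlinarith
  rw [hcos, norm_div]
  have h4 : ‖(2 : ℂ)‖ = 2 := by simp
  rw [h4]
  constructor
  · have h5 : ‖cexp (-z * I)‖ ≤ ‖cexp (z * I) + cexp (-z * I)‖ + ‖cexp (z * I)‖ := by
      have := norm_sub_le (cexp (z * I) + cexp (-z * I)) (cexp (z * I))
      rwa [add_sub_cancel_left] at this
    rw [h1, h2] at h5
    linarith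
  · have h5 := norm_add_le (cexp (z * I)) (cexp (-z * I))
    rw [h1, h2] at h5
    have := Real.exp_pos z.im
    linarith

lemma yb_im (κ x y : ℝ) : ((Real.pi * ((x + y * I) - κ) / 2 : ℂ)).im = Real.pi * y / 2 := by
  have : (Real.pi * ((x + y * I) - κ) / 2 : ℂ) =
      ((Real.pi * (x - κ) / 2 : ℝ) : ℂ) + ((Real.pi * y / 2 : ℝ) : ℂ) * I := by
    push_cast; ring
  rw [this]
  simp

lemma norm_GammaC {x y : ℝ} :
    ‖Gammaℂ (x + y * I)‖ = 2 * (2 * Real.pi) ^ (-x) * ‖Gamma (x + y * I)‖ := by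
  have hpi : 0 < 2 * Real.pi := by positivity
  rw [Complex.Gammaℂ_def, norm_mul, norm_mul]
  have h1 : ‖((2 : ℂ) * Real.pi) ^ (-(x + y * I : ℂ))‖ = (2 * Real.pi) ^ (-x) := by
    rw [show ((2 : ℂ) * Real.pi) = ((2 * Real.pi : ℝ) : ℂ) by push_cast; ring,
      Complex.norm_cpow_eq_rpow_re_of_pos hpi]
    congr 1
    simp
  rw [h1]
  simp

/-- large heights -/
lemma yb_large (b : ℝ) (hb : 1 / 2 ≤ b) : ∃ C y₀ : ℝ, 0 < C ∧ 1 ≤ y₀ ∧ ∀ κ x y : ℝ, 1 / 2 ≤ x →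
    x ≤ b → y₀ ≤ y →
    C⁻¹ * y ^ (x - 1 / 2) ≤ ‖Gammaℂ (x + y * I) * Complex.cos (Real.pi * ((x + y * I) - κ) / 2)‖ ∧
    ‖Gammaℂ (x + y * I) * Complex.cos (Real.pi * ((x + y * I) - κ) / 2)‖ ≤ C * y ^ (x - 1 / 2) := by
  have hpi := Real.pi_pos
  have hpi3 := Real.pi_gt_three
  obtain ⟨m, hm⟩ : ∃ m : ℝ, m = b + 1 / 2 := ⟨_, rfl⟩
  have hm1 : 1 ≤ m := by linarith
  obtain ⟨K, hK⟩ : ∃ K : ℝ, K = 2 * (19 * m + 18 * m ^ 2) := ⟨_, rfl⟩
  refine ⟨6 * Real.exp K * (2 * Real.pi) ^ b, 6 * m, by positivity, by linarith, ?_⟩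
  intro κ x y hx hxb hy
  have hy1 : 1 ≤ y := by linarith
  have hy0 : 0 < y := by linarith
  obtain ⟨h1, h2⟩ := gam_half (m := m) (x := x) (t := y) (by linarith) hm1 (by linarith) hy1 hy
  rw [← hK] at h1 h2
  obtain ⟨h3, h4⟩ := gam_line hy0.le
  have hc := cos_size (z := (Real.pi * ((x + y * I) - κ) / 2 : ℂ)) (by
    rw [yb_im]
    nlinarith)
  rw [yb_im] at hc
  obtain ⟨h5, h6⟩ := hc
  rw [norm_mul, norm_GammaC]
  have hp : 0 < y ^ (x - 1 / 2) := Real.rpow_pos_of_pos hy0 _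
  have hE : Real.exp (-(Real.pi * y / 2)) * Real.exp (Real.pi * y / 2) = 1 := by
    rw [← Real.exp_add]; simp
  have hq1 : (2 * Real.pi) ^ (-x) ≤ 1 := by
    refine Real.rpow_le_one_of_one_le_of_nonpos (by linarith) (by linarith)
  have hq2 : (2 * Real.pi) ^ (-b) ≤ (2 * Real.pi) ^ (-x) :=
    Real.rpow_le_rpow_of_exponent_le (by linarith) (by linarith)
  have hb1 : 1 ≤ (2 * Real.pi) ^ b := Real.one_le_rpow (by linarith) (by linarith)
  have hqb : (2 * Real.pi) ^ (-b) = ((2 * Real.pi) ^ b)⁻¹ := Real.rpow_neg (by positivity) _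
  have hqp : 0 < (2 * Real.pi) ^ (-x) := by positivity
  obtain ⟨G, hG⟩ : ∃ G : ℝ, G = ‖Gamma (x + y * I)‖ := ⟨_, rfl⟩
  obtain ⟨G1, hG1⟩ : ∃ G1 : ℝ, G1 = ‖Gamma (1 / 2 + y * I)‖ := ⟨_, rfl⟩
  obtain ⟨c, hcd⟩ : ∃ c : ℝ, c = ‖Complex.cos (Real.pi * ((x + y * I) - κ) / 2)‖ := ⟨_, rfl⟩
  obtain ⟨e, he⟩ : ∃ e : ℝ, e = Real.exp (Real.pi * y / 2) := ⟨_, rfl⟩
  obtain ⟨e', he'⟩ : ∃ e' : ℝ, e' = Real.exp (-(Real.pi * y / 2)) := ⟨_, rfl⟩
  obtain ⟨q, hqd⟩ : ∃ q : ℝ, q = (2 * Real.pi) ^ (-x) := ⟨_, rfl⟩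
  obtain ⟨Q, hQd⟩ : ∃ Q : ℝ, Q = (2 * Real.pi) ^ b := ⟨_, rfl⟩
  obtain ⟨p, hpd⟩ : ∃ p : ℝ, p = y ^ (x - 1 / 2) := ⟨_, rfl⟩
  obtain ⟨E, hEd⟩ : ∃ E : ℝ, E = Real.exp K := ⟨_, rfl⟩
  have hEn : Real.exp (-K) = E⁻¹ := by rw [hEd, Real.exp_neg]
  rw [hEn] at h1
  have hE0 : 0 < E := by rw [hEd]; exact Real.exp_pos _
  have he0 : 0 < e := by rw [he]; exact Real.exp_pos _
  have he'0 : 0 < e' := by rw [he']; exact Real.exp_pos _
  rw [← hG] at h1 h2 ⊢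
  rw [← hG1] at h1 h2 h3 h4
  rw [← hcd] at h5 h6 ⊢
  rw [← he] at h5 h6 hE
  rw [← he'] at h3 h4 hE
  rw [← hqd] at hq1 hq2 hqp ⊢
  rw [hqb, ← hQd] at hq2
  rw [← hQd] at hb1 ⊢
  rw [← hpd] at h1 h2 hp ⊢
  rw [← hEd] at h2 ⊢
  have hc0 : 0 ≤ c := by rw [hcd]; exact norm_nonneg _
  have hG0 : 0 ≤ G := by rw [hG]; exact norm_nonneg _
  have hG10 : 0 ≤ G1 := by rw [hG1]; exact norm_nonneg _
  have hQ0 : 0 < Q := by linarith
  constructor
  · calc (6 * E * Q)⁻¹ * p ≤ 2 * Q⁻¹ * (E⁻¹ * p * e') * (e / 4) := by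
          have e1 : 2 * Q⁻¹ * (E⁻¹ * p * e') * (e / 4) = (1 / 2) * (E⁻¹ * Q⁻¹ * p) * (e' * e) := by ring
          rw [e1, hE, mul_one, mul_inv, mul_inv]
          have : 0 < E⁻¹ * Q⁻¹ * p := by positivity
          nlinarith
      _ ≤ 2 * q * G * c := by
          have a1 : E⁻¹ * p * e' ≤ G := le_trans (mul_le_mul_of_nonneg_left h3 (by positivity)) h1
          have a2 : 2 * Q⁻¹ ≤ 2 * q := by linarith
          exact mul_le_mul (mul_le_mul a2 a1 (by positivity) (by positivity)) h5 (by positivity)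
            (by positivity)
  · calc 2 * q * G * c ≤ 2 * 1 * (E * p * (3 * e')) * e := by
          have a1 : G ≤ E * p * (3 * e') := h2.trans (mul_le_mul_of_nonneg_left h4 (by positivity))
          have a2 : 2 * q ≤ 2 * 1 := by linarith
          exact mul_le_mul (mul_le_mul a2 a1 hG0 (by positivity)) h6 hc0 (by positivity)
      _ = 6 * E * p * (e' * e) := by ring
      _ = 6 * E * 1 * p := by rw [hE]; ring
      _ ≤ 6 * E * Q * p := by
          refine mul_le_mul_of_nonneg_right ?_ hp.le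
          exact mul_le_mul_of_nonneg_left hb1 (by positivity)

/-- the function on the compact part -/
lemma yb_cont (κ b y₀ : ℝ) : ContinuousOn (fun v : ℝ × ℝ =>
    ‖Gammaℂ (v.1 + v.2 * I) * Complex.cos (Real.pi * ((v.1 + v.2 * I) - κ) / 2)‖ /
      v.2 ^ (v.1 - 1 / 2)) (Icc (1 / 2) b ×ˢ Icc 1 y₀) := by
  intro v hv
  obtain ⟨h1, h2⟩ := hv
  have hv2 : 0 < v.2 := by linarith [h2.1]
  have hz : ∀ n : ℕ, ((v.1 : ℂ) + v.2 * I) ≠ -n := by
    intro n h0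
    have := congrArg Complex.im h0
    simp at this
    linarith
  have hG : ContinuousAt Gammaℂ ((v.1 : ℂ) + v.2 * I) := by
    have h3 : DifferentiableAt ℂ Gamma ((v.1 : ℂ) + v.2 * I) := Complex.differentiableAt_Gamma _ hz
    have h4 : ContinuousAt (fun s : ℂ => 2 * (2 * Real.pi : ℂ) ^ (-s) * Gamma s)
        ((v.1 : ℂ) + v.2 * I) := by
      refine ContinuousAt.mul (ContinuousAt.mul continuousAt_const ?_) h3.continuousAt
      refine ContinuousAt.const_cpow continuousAt_id.neg ?_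
      left
      have : (2 : ℂ) * Real.pi = ((2 * Real.pi : ℝ) : ℂ) := by push_cast; ring
      rw [this]
      exact_mod_cast (by positivity : (2 * Real.pi) ≠ 0)
    exact h4
  have hlin : ContinuousAt (fun v : ℝ × ℝ => ((v.1 : ℂ) + v.2 * I)) v := by fun_prop
  have hG2 : ContinuousAt (fun v : ℝ × ℝ => Gammaℂ ((v.1 : ℂ) + v.2 * I)) v :=
    ContinuousAt.comp (f := fun v : ℝ × ℝ => ((v.1 : ℂ) + v.2 * I)) hG hlin
  have hC2 : ContinuousAt (fun v : ℝ × ℝ => Complex.cos (Real.pi * ((v.1 + v.2 * I) - κ) / 2)) v := by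
    fun_prop
  have hP : ContinuousAt (fun v : ℝ × ℝ => v.2 ^ (v.1 - 1 / 2)) v := by
    refine ContinuousAt.rpow continuousAt_snd ?_ (Or.inl hv2.ne')
    fun_prop
  refine ContinuousAt.continuousWithinAt ?_
  refine ContinuousAt.div (hG2.mul hC2).norm hP ?_
  exact (Real.rpow_pos_of_pos hv2 _).ne'

lemma yb_pos {κ x y : ℝ} (hy : 1 ≤ y) :
    0 < ‖Gammaℂ (x + y * I) * Complex.cos (Real.pi * ((x + y * I) - κ) / 2)‖ := by
  have hpi := Real.pi_pos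
  have hc := (cos_size (z := (Real.pi * ((x + y * I) - κ) / 2 : ℂ)) (by
    rw [yb_im]
    nlinarith)).1
  rw [norm_mul, norm_GammaC]
  have h1 : 0 < ‖Gamma (x + y * I)‖ := by
    rw [norm_pos_iff]
    refine Complex.Gamma_ne_zero fun m h0 => ?_
    have := congrArg Complex.im h0
    simp at this
    linarith
  have h2 := Real.exp_pos ((Real.pi * ((x + y * I) - κ) / 2 : ℂ)).im
  have h3 : 0 < ‖Complex.cos (Real.pi * ((x + y * I) - κ) / 2)‖ := by linarith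
  positivity

/-- bounded heights -/
lemma yb_small (b y₀ κ : ℝ) : ∃ C : ℝ, 0 < C ∧ ∀ x y : ℝ, 1 / 2 ≤ x →
    x ≤ b → 1 ≤ y → y ≤ y₀ →
    C⁻¹ * y ^ (x - 1 / 2) ≤ ‖Gammaℂ (x + y * I) * Complex.cos (Real.pi * ((x + y * I) - κ) / 2)‖ ∧
    ‖Gammaℂ (x + y * I) * Complex.cos (Real.pi * ((x + y * I) - κ) / 2)‖ ≤ C * y ^ (x - 1 / 2) := by
  have hK : IsCompact (Icc (1 / 2 : ℝ) b ×ˢ Icc (1 : ℝ) y₀) := isCompact_Icc.prod isCompact_Icc
  have hc := yb_cont κ b y₀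
  have hpos : ∀ v ∈ (Icc (1 / 2 : ℝ) b ×ˢ Icc (1 : ℝ) y₀), 0 <
      ‖Gammaℂ (v.1 + v.2 * I) * Complex.cos (Real.pi * ((v.1 + v.2 * I) - κ) / 2)‖ /
      v.2 ^ (v.1 - 1 / 2) := by
    intro v hv
    obtain ⟨_, h2⟩ := hv
    have hv2 : 0 < v.2 := by linarith [h2.1]
    exact div_pos (yb_pos h2.1) (Real.rpow_pos_of_pos hv2 _)
  obtain ⟨C1, hC1⟩ := hK.exists_bound_of_continuousOn hc
  obtain ⟨C2, hC2⟩ := hK.exists_bound_of_continuousOn (hc.inv₀ fun v hv => (hpos v hv).ne')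
  refine ⟨max 1 (max C1 C2), by positivity, fun x y hx hxb hy hyy => ?_⟩
  have hmem : ((x, y) : ℝ × ℝ) ∈ (Icc (1 / 2 : ℝ) b ×ˢ Icc (1 : ℝ) y₀) := ⟨⟨hx, hxb⟩, ⟨hy, hyy⟩⟩
  have h1 := hC1 _ hmem
  have h2 := hC2 _ hmem
  have h3 := hpos _ hmem
  have hp : 0 < y ^ (x - 1 / 2) := Real.rpow_pos_of_pos (by linarith) _
  simp only at h1 h3
  simp only [Pi.inv_apply] at h2
  rw [Real.norm_eq_abs, abs_of_pos h3] at h1
  rw [Real.norm_eq_abs, abs_of_pos (inv_pos.2 h3)] at h2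
  obtain ⟨g, hg⟩ : ∃ g : ℝ, g =
      ‖Gammaℂ (x + y * I) * Complex.cos (Real.pi * ((x + y * I) - κ) / 2)‖ := ⟨_, rfl⟩
  rw [← hg] at h1 h2 h3 ⊢
  have hM : 0 < max 1 (max C1 C2) := by positivity
  constructor
  · have h4 : (max 1 (max C1 C2))⁻¹ ≤ g / y ^ (x - 1 / 2) := by
      rw [inv_le_comm₀ hM h3]
      exact h2.trans ((le_max_right _ _).trans (le_max_right _ _))
    rwa [le_div_iff₀ hp] at h4
  · have h4 : g / y ^ (x - 1 / 2) ≤ max 1 (max C1 C2) :=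
      h1.trans ((le_max_left _ _).trans (le_max_right _ _))
    rwa [div_le_iff₀ hp] at h4

theorem yb : T_YB := by
  intro b
  obtain ⟨C, y₀, hC, hy₀, hlarge⟩ := yb_large (max b (1 / 2)) (le_max_right _ _)
  obtain ⟨C0, hC0, h0⟩ := yb_small b y₀ 0
  obtain ⟨C1, hC1, h1⟩ := yb_small b y₀ 1
  have key : ∀ A B : ℝ, 0 < A → A ≤ B → ∀ p g : ℝ, 0 ≤ p → A⁻¹ * p ≤ g ∧ g ≤ A * p →
      B⁻¹ * p ≤ g ∧ g ≤ B * p := by
    intro A B hA hAB p g hp h
    refine ⟨le_trans ?_ h.1, h.2.trans (mul_le_mul_of_nonneg_right hAB hp)⟩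
    exact mul_le_mul_of_nonneg_right (inv_anti₀ hA hAB) hp
  refine ⟨max C (max C0 C1), by positivity, ?_⟩
  intro κ hκ x y hx hxb hy
  have hp : 0 ≤ y ^ (x - 1 / 2) := Real.rpow_nonneg (by linarith) _
  by_cases hyy : y₀ ≤ y
  · exact key C _ hC (le_max_left _ _) _ _ hp (hlarge κ x y hx (hxb.trans (le_max_left _ _)) hyy)
  · push Not at hyy
    rcases hκ with rfl | rfl
    · exact key C0 _ hC0 ((le_max_left _ _).trans (le_max_right _ _)) _ _ hp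
        (h0 x y hx hxb hy hyy.le)
    · exact key C1 _ hC1 ((le_max_right _ _).trans (le_max_right _ _)) _ _ hp
        (h1 x y hx hxb hy hyy.le)

end Pool.Agent.H89.DL
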