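import Pool.Agent.H25.DL.Targets

/-!
# MP_347b49_nt, module PH: the phase of the quotient
-/

set_option autoImplicit false

open Complex MeasureTheory Set Filter Topology

namespace Pool.Agent.H89.DL

open Pool.Agent.H25.DL

/-! ### Phase asymptotics -/

/-- the phase -/
noncomputable def ph (D B η t : ℝ) : ℂ :=
  cexp ((D * t * Real.log t + B * t + η * Real.log t : ℝ) * I)

lemma norm_ph (D B η t : ℝ) : ‖ph D B η t‖ = 1 := by
  rw [ph, Complex.norm_exp_ofReal_mul_I]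

lemma ph_mul (D B η D' B' η' t : ℝ) :
    ph D B η t * ph D' B' η' t = ph (D + D') (B + B') (η + η') t := by
  rw [ph, ph, ph, ← Complex.exp_add]
  congr 1
  push_cast
  ring

lemma ph_inv (D B η t : ℝ) : (ph D B η t)⁻¹ = ph (-D) (-B) (-η) t := by
  rw [ph, ph, ← Complex.exp_neg]
  congr 1
  push_cast
  ring

/-- functions with phase asymptotics -/
def Ph (D : ℝ) (u : ℝ → ℂ) : Prop :=
  ∃ (κ : ℂ) (B η C t₁ : ℝ), ‖κ‖ = 1 ∧ 0 ≤ C ∧ 1 ≤ t₁ ∧ ∀ t : ℝ, t₁ ≤ t →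
    ‖u t - κ * ph D B η t‖ ≤ C / t

lemma Ph.mul {D D' : ℝ} {u v : ℝ → ℂ} (hu : Ph D u) (hv : Ph D' v) :
    Ph (D + D') (fun t => u t * v t) := by
  obtain ⟨κ, B, η, C, t₁, hκ, hC, ht₁, h⟩ := hu
  obtain ⟨κ', B', η', C', t₁', hκ', hC', ht₁', h'⟩ := hv
  refine ⟨κ * κ', B + B', η + η', C * (1 + C') + C', max t₁ t₁', by rw [norm_mul, hκ, hκ', mul_one],
    by positivity, ht₁.trans (le_max_left _ _), fun t ht => ?_⟩
  have h1 := h t ((le_max_left _ _).trans ht)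
  have h2 := h' t ((le_max_right _ _).trans ht)
  have ht1 : 1 ≤ t := ht₁.trans ((le_max_left _ _).trans ht)
  have ht0 : 0 < t := by linarith
  have e : u t * v t - κ * κ' * ph (D + D') (B + B') (η + η') t =
      (u t - κ * ph D B η t) * v t + κ * ph D B η t * (v t - κ' * ph D' B' η' t) := by
    rw [← ph_mul]
    ring
  have hv1 : ‖v t‖ ≤ 1 + C' := by
    have h3 : ‖v t‖ ≤ ‖v t - κ' * ph D' B' η' t‖ + ‖κ' * ph D' B' η' t‖ := by
      have := norm_add_le (v t - κ' * ph D' B' η' t) (κ' * ph D' B' η' t)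
      rwa [sub_add_cancel] at this
    rw [norm_mul, hκ', norm_ph, mul_one] at h3
    have h4 : C' / t ≤ C' := div_le_self hC' ht1
    linarith
  rw [e]
  refine (norm_add_le _ _).trans ?_
  rw [norm_mul, norm_mul, norm_mul, hκ, norm_ph, mul_one, one_mul, add_div, mul_comm C, mul_div_assoc]
  refine add_le_add ?_ h2
  rw [mul_comm]
  exact mul_le_mul hv1 h1 (norm_nonneg _) (by positivity)

lemma Ph.inv {D : ℝ} {u : ℝ → ℂ} (hu : Ph D u) : Ph (-D) (fun t => (u t)⁻¹) := by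
  obtain ⟨κ, B, η, C, t₁, hκ, hC, ht₁, h⟩ := hu
  have hκ0 : κ ≠ 0 := by
    intro h0
    rw [h0, norm_zero] at hκ
    exact zero_ne_one hκ
  refine ⟨κ⁻¹, -B, -η, 2 * C, t₁ + 2 * C, by rw [norm_inv, hκ, inv_one], by positivity,
    by linarith, fun t ht => ?_⟩
  have h1 := h t (by linarith)
  have ht1 : 1 ≤ t := by linarith
  have ht0 : 0 < t := by linarith
  obtain ⟨E, hE⟩ : ∃ E : ℂ, E = κ * ph D B η t := ⟨_, rfl⟩
  have hEn : ‖E‖ = 1 := by rw [hE, norm_mul, hκ, norm_ph, mul_one]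
  rw [← hE] at h1
  have hE0 : E ≠ 0 := by
    intro h0
    rw [h0, norm_zero] at hEn
    exact zero_ne_one hEn
  have hCt : C / t ≤ 1 / 2 := by
    rw [div_le_iff₀ ht0]
    linarith
  have hu1 : 1 / 2 ≤ ‖u t‖ := by
    have h3 : ‖E‖ ≤ ‖u t‖ + ‖u t - E‖ := by
      have := norm_sub_le (u t) (u t - E)
      rwa [sub_sub_cancel] at this
    linarith
  have hu0 : u t ≠ 0 := by
    intro h0
    rw [h0, norm_zero] at hu1
    linarith
  have e : (u t)⁻¹ - κ⁻¹ * ph (-D) (-B) (-η) t = -(u t - E) * ((u t)⁻¹ * E⁻¹) := by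
    rw [← ph_inv, ← mul_inv, ← hE]
    field_simp
    ring
  rw [e, norm_mul, norm_neg, norm_mul, norm_inv, norm_inv, hEn, inv_one, mul_one, mul_div_assoc,
    mul_comm 2]
  refine mul_le_mul h1 ?_ (by positivity) (by positivity)
  rw [inv_le_comm₀ (by linarith) (by norm_num)]
  linarith

lemma Ph.const {κ : ℂ} (hκ : ‖κ‖ = 1) : Ph 0 (fun _ => κ) := by
  refine ⟨κ, 0, 0, 0, 1, hκ, le_rfl, le_rfl, fun t _ => ?_⟩
  have : ph 0 0 0 t = 1 := by rw [ph]; simp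
  rw [this, mul_one, sub_self, norm_zero, zero_div]

lemma Ph.prod {ι : Type} (s : Finset ι) {D : ι → ℝ} {u : ι → ℝ → ℂ} (h : ∀ i, Ph (D i) (u i)) :
    Ph (∑ i ∈ s, D i) (fun t => ∏ i ∈ s, u i t) := by
  classical
  induction s using Finset.induction_on with
  | empty => simpa using Ph.const (κ := 1) (by simp)
  | insert a s ha ih =>
    have h1 : (fun t => ∏ i ∈ insert a s, u i t) = fun t => u a t * ∏ i ∈ s, u i t := by
      funext t
      rw [Finset.prod_insert ha]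
    rw [h1, Finset.sum_insert ha]
    exact (h a).mul ih

lemma Ph.exp (r τ c : ℝ) : Ph 0 (fun t => cexp (((r * t + τ : ℝ) : ℂ) * I * c)) := by
  refine ⟨cexp ((τ * c : ℝ) * I), r * c, 0, 0, 1, Complex.norm_exp_ofReal_mul_I _, le_rfl, le_rfl,
    fun t _ => ?_⟩
  rw [ph, ← Complex.exp_add]
  have : ((r * t + τ : ℝ) : ℂ) * I * c = ((τ * c : ℝ) : ℂ) * I +
      ((0 * t * Real.log t + r * c * t + 0 * Real.log t : ℝ) : ℂ) * I := by
    push_cast
    ring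
  simp only
  rw [this, sub_self, norm_zero, zero_div]

/-! ### Growth -/

/-- two-sided growth -/
def Gr (D t₀ : ℝ) (u : ℂ → ℂ) : Prop :=
  ∀ b : ℝ, ∃ C : ℝ, 0 < C ∧ ∀ σ t : ℝ, 1 / 2 ≤ σ → σ ≤ b → t₀ ≤ t →
    C⁻¹ * t ^ (D * (σ - 1 / 2)) ≤ ‖u (σ + t * I)‖ ∧ ‖u (σ + t * I)‖ ≤ C * t ^ (D * (σ - 1 / 2))

lemma Gr.mul {D D' t₀ : ℝ} {u v : ℂ → ℂ} (ht₀ : 1 ≤ t₀) (hu : Gr D t₀ u) (hv : Gr D' t₀ v) :
    Gr (D + D') t₀ (fun s => u s * v s) := by
  intro b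
  obtain ⟨C, hC, h⟩ := hu b
  obtain ⟨C', hC', h'⟩ := hv b
  refine ⟨C * C', by positivity, fun σ t hσ hσb ht => ?_⟩
  obtain ⟨h1, h2⟩ := h σ t hσ hσb ht
  obtain ⟨h3, h4⟩ := h' σ t hσ hσb ht
  have ht0 : 0 < t := by linarith
  have e : t ^ ((D + D') * (σ - 1 / 2)) = t ^ (D * (σ - 1 / 2)) * t ^ (D' * (σ - 1 / 2)) := by
    rw [← Real.rpow_add ht0]
    congr 1
    ring
  have p1 : 0 < t ^ (D * (σ - 1 / 2)) := Real.rpow_pos_of_pos ht0 _
  have p2 : 0 < t ^ (D' * (σ - 1 / 2)) := Real.rpow_pos_of_pos ht0 _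
  rw [norm_mul, e]
  constructor
  · rw [mul_inv, mul_mul_mul_comm]
    exact mul_le_mul h1 h3 (by positivity) (norm_nonneg _)
  · rw [mul_mul_mul_comm]
    exact mul_le_mul h2 h4 (norm_nonneg _) (by positivity)

lemma Gr.inv {D t₀ : ℝ} {u : ℂ → ℂ} (ht₀ : 1 ≤ t₀) (hu : Gr D t₀ u) :
    Gr (-D) t₀ (fun s => (u s)⁻¹) := by
  intro b
  obtain ⟨C, hC, h⟩ := hu b
  refine ⟨C, hC, fun σ t hσ hσb ht => ?_⟩
  obtain ⟨h1, h2⟩ := h σ t hσ hσb ht
  have ht0 : 0 < t := by linarith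
  have e : t ^ (-D * (σ - 1 / 2)) = (t ^ (D * (σ - 1 / 2)))⁻¹ := by
    rw [← Real.rpow_neg ht0.le]
    congr 1
    ring
  have p1 : 0 < t ^ (D * (σ - 1 / 2)) := Real.rpow_pos_of_pos ht0 _
  have hu0 : 0 < ‖u (σ + t * I)‖ := lt_of_lt_of_le (by positivity) h1
  rw [norm_inv, e]
  constructor
  · rw [← mul_inv]
    exact inv_anti₀ hu0 h2
  · have h5 : (C⁻¹ * t ^ (D * (σ - 1 / 2)))⁻¹ = C * (t ^ (D * (σ - 1 / 2)))⁻¹ := by
      rw [mul_inv, inv_inv]
    rw [← h5]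
    exact inv_anti₀ (by positivity) h1

lemma Gr.prod {ι : Type} (s : Finset ι) {t₀ : ℝ} (ht₀ : 1 ≤ t₀) {D : ι → ℝ} {u : ι → ℂ → ℂ}
    (h : ∀ i, Gr (D i) t₀ (u i)) : Gr (∑ i ∈ s, D i) t₀ (fun z => ∏ i ∈ s, u i z) := by
  classical
  induction s using Finset.induction_on with
  | empty =>
    intro b
    refine ⟨1, one_pos, fun σ t _ _ _ => ?_⟩
    simp
  | insert a s ha ih =>
    have h1 : (fun t => ∏ i ∈ insert a s, u i t) = fun t => u a t * ∏ i ∈ s, u i t := by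
      funext t
      rw [Finset.prod_insert ha]
    rw [h1, Finset.sum_insert ha]
    exact Gr.mul ht₀ (h a) ih

lemma Gr.of_bdd {t₀ : ℝ} {u : ℂ → ℂ} {c E : ℝ → ℝ}
    (h : ∀ σ t : ℝ, 1 / 2 ≤ σ → t₀ ≤ t → ‖u (σ + t * I)‖ = Real.exp (c σ))
    (hc : ∀ b σ : ℝ, 1 / 2 ≤ σ → σ ≤ b → |c σ| ≤ E b) : Gr 0 t₀ u := by
  intro b
  refine ⟨Real.exp (E b), Real.exp_pos _, fun σ t hσ hσb ht => ?_⟩
  rw [h σ t hσ ht, zero_mul, Real.rpow_zero, mul_one, mul_one, ← Real.exp_neg]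
  have := abs_le.1 (hc b σ hσ hσb)
  exact ⟨Real.exp_le_exp.2 this.1, Real.exp_le_exp.2 this.2⟩

/-! ### One factor -/

/-- threshold for the heights -/
noncomputable def th (a : DLF) : ℝ := 1 + (2 + 2 * |a.τ|) / a.r

lemma one_le_th (a : DLF) : 1 ≤ th a := by
  have := a.r_pos
  rw [th]
  have : 0 ≤ (2 + 2 * |a.τ|) / a.r := by positivity
  linarith

lemma th_spec {a : DLF} {t : ℝ} (ht : th a ≤ t) :
    2 + 2 * |a.τ| ≤ a.r * t := by
  have hr := a.r_pos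
  rw [th] at ht
  have h : (2 + 2 * |a.τ|) / a.r ≤ t := by linarith
  rw [div_le_iff₀ hr] at h
  linarith [mul_comm t a.r]

lemma wl_im (r τ : ℝ) (s : ℂ) : (wl r τ s).im = r * s.im + τ := by
  have h1 : ((1 : ℂ) / 2).im = 0 := by
    rw [show ((1 : ℂ) / 2) = ((1 / 2 : ℝ) : ℂ) by push_cast; ring, Complex.ofReal_im]
  simp only [wl, Complex.add_im, Complex.mul_im, Complex.sub_im, Complex.ofReal_re,
    Complex.ofReal_im, Complex.I_re, Complex.I_im, h1]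
  ring

lemma wl_add_mul_I (r τ σ t : ℝ) :
    wl r τ (σ + t * I) = ((1 / 2 + r * (σ - 1 / 2) : ℝ) : ℂ) + ((r * t + τ : ℝ) : ℂ) * I := by
  rw [wl]
  push_cast
  ring

lemma wl_half (r τ t : ℝ) : wl r τ (1 / 2 + t * I) = 1 / 2 + ((r * t + τ : ℝ) : ℂ) * I := by
  rw [wl]
  push_cast
  ring

lemma wl_diff (r τ : ℝ) (s : ℂ) : DifferentiableAt ℂ (wl r τ) s := by
  unfold wl
  fun_prop

lemma th_im {a : DLF} {s : ℂ} (hs : th a ≤ s.im) : 1 ≤ (wl a.r a.τ s).im := by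
  rw [wl_im]
  have h1 := th_spec hs
  have h2 := neg_abs_le a.τ
  have h3 := abs_nonneg a.τ
  linarith

lemma fac_ph (h1 : T_YA) (a : DLF) : Ph (a.r * a.L.n) (fun t => a.L.y (wl a.r a.τ (1 / 2 + t * I))) := by
  have hk : ∀ j : Fin a.L.n, Ph a.r (fun t => Gammaℂ (1 / 2 + ((a.r * t + a.τ : ℝ) : ℂ) * I) *
      Complex.cos (Real.pi * ((1 / 2 + ((a.r * t + a.τ : ℝ) : ℂ) * I) - a.L.κ j) / 2)) := by
    intro j
    obtain ⟨ω, B, C, t₁, hω, ht₁, h⟩ := h1 (a.L.κ j) (a.L.κ_mem j) a.r a.τ a.r_pos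
    refine ⟨ω, B, a.τ, |C|, t₁, hω, abs_nonneg _, ht₁, fun t ht => ?_⟩
    refine (h t ht).trans ?_
    exact div_le_div_of_nonneg_right (le_abs_self C) (by linarith)
  have hprod := Ph.prod Finset.univ hk
  have hexp := Ph.exp a.r a.τ (Real.log a.L.A)
  have hall := ((Ph.const a.L.norm_ε).mul hexp).mul hprod
  have e : (0 : ℝ) + 0 + ∑ _j : Fin a.L.n, a.r = a.r * a.L.n := by
    rw [Finset.sum_const, Finset.card_univ, Fintype.card_fin, nsmul_eq_mul]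
    ring
  rw [e] at hall
  have e2 : (fun t : ℝ => a.L.y (wl a.r a.τ (1 / 2 + t * I))) = fun t : ℝ =>
      a.L.ε * cexp (((a.r * t + a.τ : ℝ) : ℂ) * I * (Real.log a.L.A : ℝ)) *
        ∏ j, (Gammaℂ (1 / 2 + ((a.r * t + a.τ : ℝ) : ℂ) * I) *
      Complex.cos (Real.pi * ((1 / 2 + ((a.r * t + a.τ : ℝ) : ℂ) * I) - a.L.κ j) / 2)) := by
    funext t
    rw [wl_half, LF.y]
    congr 3
    ring
  rw [e2]
  exact hall

lemma fac_gr (h2 : T_YB) (a : DLF) {t₀ : ℝ} (ht₀ : th a ≤ t₀) :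
    Gr (a.r * a.L.n) t₀ (fun s => a.L.y (wl a.r a.τ s)) := by
  have hr := a.r_pos
  have ht1 : 1 ≤ t₀ := (one_le_th a).trans ht₀
  have hk : ∀ j : Fin a.L.n, Gr a.r t₀ (fun s => Gammaℂ (wl a.r a.τ s) *
      Complex.cos (Real.pi * (wl a.r a.τ s - a.L.κ j) / 2)) := by
    intro j b
    obtain ⟨C, hC, h⟩ := h2 (1 / 2 + a.r * (b - 1 / 2))
    obtain ⟨P, hP⟩ : ∃ P : ℝ, P = 1 + 2 * a.r + 2 / a.r := ⟨_, rfl⟩
    have hP1 : 1 ≤ P := by
      rw [hP]
      have : 0 ≤ 2 / a.r := by positivity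
      linarith
    have hP0 : 0 < P := by linarith
    refine ⟨C * P ^ (a.r * (b - 1 / 2)), by positivity, fun σ t hσ hσb ht => ?_⟩
    have hsp := th_spec (ht₀.trans ht)
    have ha1 := neg_abs_le a.τ
    have ha2 := le_abs_self a.τ
    have ha3 := abs_nonneg a.τ
    have ht0 : 0 < t := by linarith
    obtain ⟨y, hy⟩ : ∃ y : ℝ, y = a.r * t + a.τ := ⟨_, rfl⟩
    have hy1 : 1 ≤ y := by linarith
    have hy2 : y ≤ P * t := by
      have : 0 ≤ 2 / a.r * t := by positivity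
      rw [hP]
      nlinarith
    have hy3 : P⁻¹ * t ≤ y := by
      rw [inv_mul_le_iff₀ hP0, hP]
      have h3 : a.r * t / 2 ≤ y := by linarith
      have h4 : t ≤ 2 / a.r * y := by
        rw [div_mul_eq_mul_div, le_div_iff₀ hr]
        linarith
      nlinarith
    obtain ⟨e, he⟩ : ∃ e : ℝ, e = a.r * (σ - 1 / 2) := ⟨_, rfl⟩
    have he0 : 0 ≤ e := by rw [he]; exact mul_nonneg hr.le (by linarith)
    have heE : e ≤ a.r * (b - 1 / 2) := by
      rw [he]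
      exact mul_le_mul_of_nonneg_left (by linarith) hr.le
    have hb := h (a.L.κ j) (a.L.κ_mem j) (1 / 2 + e) y (by linarith) (by linarith) hy1
    have hw : wl a.r a.τ (σ + t * I) = ((1 / 2 + e : ℝ) : ℂ) + (y : ℂ) * I := by
      rw [wl_add_mul_I, he, hy]
    rw [add_sub_cancel_left] at hb
    obtain ⟨hb1, hb2⟩ := hb
    rw [← he]
    simp only
    rw [hw]
    have hpow1 : y ^ e ≤ P ^ (a.r * (b - 1 / 2)) * t ^ e := by
      calc y ^ e ≤ (P * t) ^ e := Real.rpow_le_rpow (by linarith) hy2 he0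
        _ = P ^ e * t ^ e := Real.mul_rpow hP0.le ht0.le
        _ ≤ _ := by
          refine mul_le_mul_of_nonneg_right ?_ (Real.rpow_nonneg ht0.le _)
          exact Real.rpow_le_rpow_of_exponent_le hP1 heE
    have hpow2 : (P ^ (a.r * (b - 1 / 2)))⁻¹ * t ^ e ≤ y ^ e := by
      calc (P ^ (a.r * (b - 1 / 2)))⁻¹ * t ^ e ≤ (P ^ e)⁻¹ * t ^ e := by
            refine mul_le_mul_of_nonneg_right ?_ (Real.rpow_nonneg ht0.le _)
            exact inv_anti₀ (Real.rpow_pos_of_pos hP0 _) (Real.rpow_le_rpow_of_exponent_le hP1 heE)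
        _ = (P⁻¹ * t) ^ e := by
            rw [Real.mul_rpow (inv_nonneg.2 hP0.le) ht0.le, Real.inv_rpow hP0.le]
        _ ≤ y ^ e := Real.rpow_le_rpow (by positivity) hy3 he0
    constructor
    · refine le_trans ?_ hb1
      rw [mul_inv, mul_assoc]
      exact mul_le_mul_of_nonneg_left hpow2 (inv_nonneg.2 hC.le)
    · refine hb2.trans ?_
      rw [mul_assoc]
      exact mul_le_mul_of_nonneg_left hpow1 hC.le
  have hprod := Gr.prod Finset.univ ht1 hk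
  have hexp : Gr 0 t₀ (fun s => a.L.ε * cexp ((wl a.r a.τ s - 1 / 2) * Real.log a.L.A)) := by
    refine Gr.of_bdd (c := fun σ => a.r * (σ - 1 / 2) * Real.log a.L.A)
      (E := fun b => a.r * (b - 1 / 2) * |Real.log a.L.A|) ?_ ?_
    · intro σ t _ _
      rw [norm_mul, a.L.norm_ε, one_mul, Complex.norm_exp, wl_add_mul_I]
      congr 1
      have : ((((1 / 2 + a.r * (σ - 1 / 2) : ℝ) : ℂ) + ((a.r * t + a.τ : ℝ) : ℂ) * I - 1 / 2) *
          (Real.log a.L.A : ℝ) : ℂ) = ((a.r * (σ - 1 / 2) * Real.log a.L.A : ℝ) : ℂ) +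
          (((a.r * t + a.τ) * Real.log a.L.A : ℝ) : ℂ) * I := by
        push_cast
        ring
      rw [this]
      simp
    · intro b σ hσ hσb
      rw [abs_mul, abs_of_nonneg (mul_nonneg hr.le (by linarith))]
      refine mul_le_mul_of_nonneg_right ?_ (abs_nonneg _)
      exact mul_le_mul_of_nonneg_left (by linarith) hr.le
  have hall := Gr.mul ht1 hexp hprod
  have e : (0 : ℝ) + ∑ _j : Fin a.L.n, a.r = a.r * a.L.n := by
    rw [Finset.sum_const, Finset.card_univ, Fintype.card_fin, nsmul_eq_mul]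
    ring
  rw [e] at hall
  exact hall

theorem phase (h1 : T_YA) (h2 : T_YB) (h3 : T_YN) : T_PH := by
  intro F
  -- the asymptotics
  have hph : Ph F.d (fun t => F.Y (1 / 2 + t * I)) := by
    have ha := Ph.prod Finset.univ (fun i => fac_ph h1 (F.p i))
    have hb := (Ph.prod Finset.univ (fun j => fac_ph h1 (F.q j))).inv
    have hc := ha.mul hb
    rw [← sub_eq_add_neg] at hc
    have e : (fun t : ℝ => F.Y (1 / 2 + t * I)) = fun t : ℝ =>
        (∏ i, (F.p i).L.y (wl (F.p i).r (F.p i).τ (1 / 2 + t * I))) *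
          (∏ j, (F.q j).L.y (wl (F.q j).r (F.q j).τ (1 / 2 + t * I)))⁻¹ := by
      funext t
      rw [Fam.Y, div_eq_mul_inv]
    rw [e]
    exact hc
  obtain ⟨κ, B, η, C, t₁, hκ, hC, ht₁, hmain⟩ := hph
  obtain ⟨t₀, ht₀⟩ : ∃ t₀ : ℝ, t₀ = t₁ + (∑ i, th (F.p i)) + ∑ j, th (F.q j) := ⟨_, rfl⟩
  have hth : ∀ a : DLF, 0 ≤ th a := fun a => zero_le_one.trans (one_le_th a)
  have hsp : 0 ≤ ∑ i, th (F.p i) := Finset.sum_nonneg fun i _ => hth _
  have hsq : 0 ≤ ∑ j, th (F.q j) := Finset.sum_nonneg fun j _ => hth _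
  have h1t : 1 ≤ t₀ := by linarith
  have hp : ∀ i, th (F.p i) ≤ t₀ := by
    intro i
    have := Finset.single_le_sum (f := fun i => th (F.p i)) (fun i _ => hth _) (Finset.mem_univ i)
    linarith
  have hq : ∀ j, th (F.q j) ≤ t₀ := by
    intro j
    have := Finset.single_le_sum (f := fun j => th (F.q j)) (fun i _ => hth _) (Finset.mem_univ j)
    linarith
  refine ⟨t₀, h1t, ?_, ⟨κ, B, η, C, hκ, fun t ht => ?_⟩, ?_⟩
  · intro s hs
    have key : ∀ a : DLF, th a ≤ t₀ → DifferentiableAt ℂ (fun s => a.L.y (wl a.r a.τ s)) s ∧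
        a.L.y (wl a.r a.τ s) ≠ 0 := by
      intro a ha
      have h4 := th_im (ha.trans hs)
      have h5 := h3 a.L (wl a.r a.τ s) (by linarith)
      exact ⟨DifferentiableAt.comp s h5.1 (wl_diff _ _ _), h5.2⟩
    have hA : DifferentiableAt ℂ (fun s => ∏ i, (F.p i).L.y (wl (F.p i).r (F.p i).τ s)) s :=
      DifferentiableAt.fun_finsetProd fun i _ => (key _ (hp i)).1
    have hB : DifferentiableAt ℂ (fun s => ∏ j, (F.q j).L.y (wl (F.q j).r (F.q j).τ s)) s :=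
      DifferentiableAt.fun_finsetProd fun j _ => (key _ (hq j)).1
    exact hA.div hB (Finset.prod_ne_zero_iff.2 fun j _ => (key _ (hq j)).2)
  · exact hmain t (by linarith)
  · intro b
    have hA := Gr.prod Finset.univ h1t (fun i => fac_gr h2 (F.p i) (hp i))
    have hB := (Gr.prod Finset.univ h1t (fun j => fac_gr h2 (F.q j) (hq j))).inv h1t
    obtain ⟨C, hC, h⟩ := (hA.mul h1t hB) b
    refine ⟨C, hC, fun σ t hσ hσb ht => ?_⟩
    have h4 := (h σ t hσ hσb ht).2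
    rw [← sub_eq_add_neg] at h4
    rw [Fam.Y, div_eq_mul_inv]
    exact h4

end Pool.Agent.H89.DL
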